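import Mathlib
import Pool.Agent.N13.PE.Gam

/-!
# A family of numbers through `π`: sums and products with `e`

For real `a` in `(0, 1)` and `x ≥ 0` let `J_a(x) = ∫_0^∞ e^(-x t) / (t^a (1 + t)) dt`, so that
`J_a(0) = π / sin(π a)`; in particular `π = J(0)` for `J = J_(1/2)`. We consider the numbers
`J(x) + e`, `J(x) - e`, `J(x) e`, `J(x) / e` for rational `x ≥ 0`; for `x = 0` these are `π + e`,
`π - e`, `π e`, `π / e`.

(1) At most one of the numbers `J(x)`, `x ≥ 0` rational, is algebraic over `ℚ(e)`. Hence for all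
rational `x ≥ 0` with at most one exception the four numbers `J(x) + e`, `J(x) - e`, `J(x) e`,
`J(x) / e` are transcendental.

(2) If `J(x₀)` is algebraic over `ℚ(e)`, then `e` and all the numbers `J(x)`, `x ≠ x₀`, are
algebraically independent over `ℚ`.

(3) If one of the numbers `π + e`, `π - e`, `π e`, `π / e` is algebraic, then `e` and all the
numbers `J(x)`, `x > 0` rational, are algebraically independent over `ℚ`; moreover at most one of
the numbers `Γ(1/3)` and `J_(k/6)(x)` (`1 ≤ k ≤ 5`, `x > 0` rational) is algebraic over `ℚ(e)`, and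
at most one of the numbers `Γ(1/4)` and `J_(k/4)(x)` (`1 ≤ k ≤ 3`).

(4) At most two of the numbers `π`, `Γ(1/3)`, `J_(k/6)(x)`, at most two of the numbers `π`,
`Γ(1/4)`, `J_(k/4)(x)`, and for every `N ≥ 2` at most `(N + 1) / 2` (integer part) of the numbers
`π`, `Γ(k/N)` (`1 ≤ k < N/2`), `J_(k/N)(x)` (`1 ≤ k < N`, `x > 0` rational) are algebraic over
`ℚ(e)`.

(5) The general statement: let `y_1, …, y_r` be real numbers and `A` a set of rational numbers `a`
in `(0, 1)` for which `Γ(a)` and `Γ(1 - a)` are algebraic over `ℚ(e, y_1, …, y_r)`. At most `r` of the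
numbers `y_1, …, y_r` and `J_a(x)` (`a ∈ A`, `x > 0` rational) are algebraic over `ℚ(e)`, and for
every finite set `S` of pairs `(a, x)` the field `ℚ(e, y_1, …, y_r, J_a(x) : (a, x) ∈ S)` has
transcendence degree at least `|S| + 1`.

In (3), (4) and (5) numbers of different names are counted separately.

The proof uses `J_a(x) = e^x Γ(1 - a) Γ(a, x)` (incomplete gamma function), the reflection and
the duplication formula, and the algebraic independence of `e` and the values of the corresponding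
E-functions at rational points (theorem of Siegel and Shidlovskii,
`Pool.Agent.R352.T` of the starting files).
-/

set_option autoImplicit false

open MeasureTheory Set

namespace Pool.Agent.Results.MP_a49cf6_nt.DeformationOfPi

/-- the number `z` is algebraic over the field `ℚ(e)` -/
def AlgebraicOverE (z : ℝ) : Prop := IsAlgebraic (IntermediateField.adjoin ℚ {Real.exp 1}) z

/-- the number `z` is algebraic over the field `ℚ(e, y_1, …, y_r)` -/
def AlgebraicOverEAnd {r : ℕ} (y : Fin r → ℝ) (z : ℝ) : Prop :=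
  IsAlgebraic (IntermediateField.adjoin ℚ ({Real.exp 1} ∪ range y)) z

/-- `J a x = ∫_0^∞ e^(-x t) / (t^a (1 + t)) dt` -/
noncomputable def J (a x : ℝ) : ℝ := ∫ t in Ioi (0 : ℝ), Real.exp (-(x * t)) / (t ^ a * (1 + t))

/-- the fractions `k / N`, `1 ≤ k < N` -/
def fractions (N : ℕ) : Set ℚ := {a | ∃ k : ℕ, 0 < k ∧ k < N ∧ a = k / N}

/-- the names of the algebraic numbers (over `ℚ(e)`) among `y_1, …, y_r` and `J a x`, `a ∈ A`, `x > 0` -/
def algebraicNames {r : ℕ} (y : Fin r → ℝ) (A : Set ℚ) : Set (Fin r ⊕ (ℚ × ℚ)) :=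
  {i | Sum.elim (fun k => AlgebraicOverE (y k))
    (fun p => p.1 ∈ A ∧ 0 < p.2 ∧ AlgebraicOverE (J p.1 p.2)) i}

/-- `π` and the gamma values `Γ(k / N)`, `1 ≤ k < N / 2` -/
noncomputable def constants (N : ℕ) : Fin ((N + 1) / 2) → ℝ :=
  fun i => if (i : ℕ) = 0 then Real.pi else Real.Gamma ((i : ℕ) / N)

open Pool.Agent.R352.E (clF mem_clF subset_clF clF_mono clF_le)
open Pool.Agent.N13.PE (GH GH_of six_mem four_mem consts_mem alg_mem AI_exc J_half_zero J_zero)

theorem names_eq {r : ℕ} (y : Fin r → ℝ) (A : Set ℚ) : algebraicNames y A = Pool.Agent.N13.PE.names y A := by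
  ext i
  rcases i with i | p
  · exact (mem_clF (S := {Real.exp 1})).symm
  · exact and_congr_right fun _ => and_congr_right fun _ => (mem_clF (S := {Real.exp 1})).symm

theorem GH_eq {r : ℕ} {y : Fin r → ℝ} {A : Set ℚ} (h : ∀ a ∈ A, 0 < a ∧ a < 1 ∧
    AlgebraicOverEAnd y (Real.Gamma a) ∧ AlgebraicOverEAnd y (Real.Gamma (1 - a))) : GH y A :=
  fun a ha => ⟨⟨(h a ha).1, (h a ha).2.1⟩, mem_clF.2 (h a ha).2.2.1, mem_clF.2 (h a ha).2.2.2⟩

theorem count {r : ℕ} {y : Fin r → ℝ} {A : Set ℚ} (h : GH y A) : (algebraicNames y A).encard ≤ (r : ℕ∞) := by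
  rw [names_eq]
  exact Pool.Agent.N13.PE.count h

/-- `π` is algebraic over `ℚ(e)` if one of the four numbers is algebraic -/
theorem pi_mem (h : IsAlgebraic ℚ (Real.pi + Real.exp 1) ∨ IsAlgebraic ℚ (Real.pi - Real.exp 1) ∨
    IsAlgebraic ℚ (Real.pi * Real.exp 1) ∨ IsAlgebraic ℚ (Real.pi / Real.exp 1)) :
    Real.pi ∈ clF {Real.exp 1} := by
  have he : Real.exp 1 ∈ clF {Real.exp 1} := subset_clF _ rfl
  have he0 : Real.exp 1 ≠ 0 := (Real.exp_pos 1).ne'
  rcases h with h | h | h | h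
  · have := (clF {Real.exp 1}).sub_mem (alg_mem h _) he
    rwa [add_sub_cancel_right] at this
  · have := (clF {Real.exp 1}).add_mem (alg_mem h _) he
    rwa [sub_add_cancel] at this
  · have := (clF {Real.exp 1}).div_mem (alg_mem h _) he
    rwa [mul_div_cancel_right₀ _ he0] at this
  · have := (clF {Real.exp 1}).mul_mem (alg_mem h _) he
    rwa [div_mul_cancel₀ _ he0] at this

theorem four_transcendental {z : ℝ} (h : ¬ AlgebraicOverE z) : Transcendental ℚ (z + Real.exp 1) ∧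
    Transcendental ℚ (z - Real.exp 1) ∧ Transcendental ℚ (z * Real.exp 1) ∧
    Transcendental ℚ (z / Real.exp 1) := by
  have he : Real.exp 1 ∈ clF {Real.exp 1} := subset_clF _ rfl
  have he0 : Real.exp 1 ≠ 0 := (Real.exp_pos 1).ne'
  have h' : z ∉ clF {Real.exp 1} := fun hz => h (mem_clF.1 hz)
  refine ⟨fun hh => h' ?_, fun hh => h' ?_, fun hh => h' ?_, fun hh => h' ?_⟩
  · have := (clF {Real.exp 1}).sub_mem (alg_mem hh _) he
    rwa [add_sub_cancel_right] at this
  · have := (clF {Real.exp 1}).add_mem (alg_mem hh _) he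
    rwa [sub_add_cancel] at this
  · have := (clF {Real.exp 1}).div_mem (alg_mem hh _) he
    rwa [mul_div_cancel_right₀ _ he0] at this
  · have := (clF {Real.exp 1}).mul_mem (alg_mem hh _) he
    rwa [div_mul_cancel₀ _ he0] at this

/-- at most one `x` -/
theorem subsingleton_half : {x : ℚ | 0 ≤ x ∧ AlgebraicOverE (J (1 / 2) x)}.Subsingleton := by
  rintro x ⟨hx, hxa⟩ x' ⟨hx', hxa'⟩
  by_contra hne
  have h := AI_exc hx (mem_clF.2 hxa)
  have h2 := h.comp (fun _ : Unit => some (⟨x', hx', fun h => hne h.symm⟩ : {z : ℚ // 0 ≤ z ∧ z ≠ x}))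
    (fun _ _ _ => rfl)
  -- `J x'` is algebraic over `ℚ(e)`, but `e` and `J x'` are algebraically independent
  have hmem : ∀ o : Option {z : ℚ // 0 ≤ z ∧ z ≠ x},
      o = none ∨ o = some (⟨x', hx', fun h => hne h.symm⟩ : {z : ℚ // 0 ≤ z ∧ z ≠ x}) →
      o.elim (Real.exp 1) (fun x => J (1 / 2) (x : ℚ)) ∈ clF (range fun _ : Unit => Real.exp 1) := by
    have e1 : (range fun _ : Unit => Real.exp 1) = {Real.exp 1} := range_const
    rintro o (rfl | rfl)
    · exact subset_clF _ ⟨(), rfl⟩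
    · rw [e1]
      exact mem_clF.2 hxa'
  let g : Bool → Option {z : ℚ // 0 ≤ z ∧ z ≠ x} := fun b =>
    if b then none else some (⟨x', hx', fun h => hne h.symm⟩ : {z : ℚ // 0 ≤ z ∧ z ≠ x})
  have hg : Function.Injective g := by
    intro b b' hb
    cases b <;> cases b' <;> simp_all [g]
  have h3 := h.comp g hg
  have h4 := Pool.Agent.R352.E.card_le_card h3 (y := fun _ : Unit => Real.exp 1) (fun b => by
    refine hmem (g b) ?_
    cases b
    · right; simp [g]
    · left; simp [g])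
  simp at h4

theorem result :
    (∀ a : ℝ, 0 < a → a < 1 → J a 0 = Real.pi / Real.sin (Real.pi * a)) ∧ J (1 / 2) 0 = Real.pi ∧
    -- (1)
    {x : ℚ | 0 ≤ x ∧ AlgebraicOverE (J (1 / 2) x)}.Subsingleton ∧
    (∃ x₀ : ℚ, ∀ x : ℚ, 0 ≤ x → x ≠ x₀ → Transcendental ℚ (J (1 / 2) x + Real.exp 1) ∧
      Transcendental ℚ (J (1 / 2) x - Real.exp 1) ∧ Transcendental ℚ (J (1 / 2) x * Real.exp 1) ∧
      Transcendental ℚ (J (1 / 2) x / Real.exp 1)) ∧
    -- (2)
    (∀ x₀ : ℚ, 0 ≤ x₀ → AlgebraicOverE (J (1 / 2) x₀) →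
      AlgebraicIndependent ℚ (fun o : Option {x : ℚ // 0 ≤ x ∧ x ≠ x₀} =>
        o.elim (Real.exp 1) (fun x => J (1 / 2) (x : ℚ)))) ∧
    -- (3)
    ((IsAlgebraic ℚ (Real.pi + Real.exp 1) ∨ IsAlgebraic ℚ (Real.pi - Real.exp 1) ∨
        IsAlgebraic ℚ (Real.pi * Real.exp 1) ∨ IsAlgebraic ℚ (Real.pi / Real.exp 1)) →
      AlgebraicIndependent ℚ (fun o : Option {x : ℚ // 0 < x} =>
        o.elim (Real.exp 1) (fun x => J (1 / 2) (x : ℚ))) ∧
      (algebraicNames ![Real.Gamma (1 / 3)] (fractions 6)).encard ≤ 1 ∧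
      (algebraicNames ![Real.Gamma (1 / 4)] (fractions 4)).encard ≤ 1) ∧
    -- (4)
    (algebraicNames ![Real.pi, Real.Gamma (1 / 3)] (fractions 6)).encard ≤ 2 ∧
    (algebraicNames ![Real.pi, Real.Gamma (1 / 4)] (fractions 4)).encard ≤ 2 ∧
    (∀ N : ℕ, 2 ≤ N → (algebraicNames (constants N) (fractions N)).encard ≤ (((N + 1) / 2 : ℕ) : ℕ∞)) ∧
    -- (5)
    (∀ (r : ℕ) (y : Fin r → ℝ) (A : Set ℚ), (∀ a ∈ A, 0 < a ∧ a < 1 ∧
        AlgebraicOverEAnd y (Real.Gamma a) ∧ AlgebraicOverEAnd y (Real.Gamma (1 - a))) →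
      (algebraicNames y A).encard ≤ (r : ℕ∞) ∧
      ∀ S : Finset (ℚ × ℚ), (∀ p ∈ S, p.1 ∈ A ∧ 0 < p.2) →
        ((S.card + 1 : ℕ) : Cardinal) ≤ Algebra.trdeg ℚ (IntermediateField.adjoin ℚ
          ({Real.exp 1} ∪ range y ∪ (fun p : ℚ × ℚ => J p.1 p.2) '' (S : Set (ℚ × ℚ))))) := by
  refine ⟨fun a h0 h1 => J_zero h0 h1, J_half_zero, subsingleton_half, ?_,
    fun x₀ h0 h => AI_exc h0 (mem_clF.2 h), fun h => ?_, ?_, ?_, fun N hN => ?_, fun r y A h => ⟨count (GH_eq h), fun S hS => ?_⟩⟩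
  · -- the exceptional point
    by_cases hex : ∃ x₀ : ℚ, 0 ≤ x₀ ∧ AlgebraicOverE (J (1 / 2) x₀)
    · obtain ⟨x₀, h0, h1⟩ := hex
      refine ⟨x₀, fun x hx hne => four_transcendental fun hx' => hne ?_⟩
      exact subsingleton_half ⟨hx, hx'⟩ ⟨h0, h1⟩
    · exact ⟨0, fun x hx _ => four_transcendental fun hx' => hex ⟨x, hx, hx'⟩⟩
  · have hpi := pi_mem h
    have hpi' : ∀ {r : ℕ} (y : Fin r → ℝ), Real.pi ∈ clF ({Real.exp 1} ∪ range y) := fun y =>
      clF_mono subset_union_left hpi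
    refine ⟨?_, ?_, ?_⟩
    · have h1 := AI_exc (x₀ := 0) le_rfl (by rw [Rat.cast_zero, J_half_zero]; exact hpi)
      let f : Option {x : ℚ // 0 < x} → Option {x : ℚ // 0 ≤ x ∧ x ≠ 0} :=
        Option.map fun x => ⟨x, x.2.le, x.2.ne'⟩
      have hf : Function.Injective f := by
        refine Option.map_injective ?_
        intro p p' h
        simp only [Subtype.mk.injEq] at h
        exact Subtype.ext h
      have h2 := h1.comp f hf
      convert h2 using 1
      ext o
      cases o with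
      | none => rfl
      | some p => rfl
    · exact count (GH_of (six_mem (hpi' _) (subset_clF _ (Or.inr ⟨0, rfl⟩))))
    · exact count (GH_of (four_mem (hpi' _) (subset_clF _ (Or.inr ⟨0, rfl⟩))))
  · exact count (GH_of (six_mem (subset_clF _ (Or.inr ⟨0, rfl⟩)) (subset_clF _ (Or.inr ⟨1, rfl⟩))))
  · exact count (GH_of (four_mem (subset_clF _ (Or.inr ⟨0, rfl⟩)) (subset_clF _ (Or.inr ⟨1, rfl⟩))))
  · exact count (GH_of fun a ha => consts_mem hN a ha)
  · exact Pool.Agent.N13.PE.trdeg (GH_eq h) S hS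

end Pool.Agent.Results.MP_a49cf6_nt.DeformationOfPi
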