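import Pool.Agent.N743.Dg.Asym
import Pool.Agent.N743.Dg.Pairs
import Pool.Agent.N743.SS.PiK

/-!
# Digits of `π + e`, `π e` and related numbers in two different bases
-/

set_option autoImplicit false

open MeasureTheory Set
open scoped Nat

namespace Pool.Agent.Results.MP_a49cf6_nt.DigitsInTwoBases

open Pool.Agent.N743.Dg Pool.Agent.N743.SS

/-- `s 1, …, s L` satisfy the linear recurrence `s (i + m) = c 0 * s i + … + c (m - 1) * s (i + m - 1)`,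
`1 ≤ i ≤ L - m`. -/
def Recurrence (s : ℕ → ℤ) (c : ℕ → ℚ) (L m : ℕ) : Prop :=
  ∀ i : ℕ, 1 ≤ i → i + m ≤ L → (s (i + m) : ℚ) = ∑ j ∈ Finset.range m, c j * (s (i + j) : ℚ)

/-- the linear complexity `N(x; b, L)` of the first `L` digits `⌊x b ^ i⌋ mod b`, `1 ≤ i ≤ L`, of `x` in base `b`:
the least order `m` of a linear recurrence over `ℚ` satisfied by them -/
noncomputable def N (x : ℝ) (b L : ℕ) : ℕ :=
  sInf {m | ∃ c : ℕ → ℚ, Recurrence (fun i => ⌊x * (b : ℝ) ^ i⌋ % (b : ℤ)) c L m}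

/-- `m + C √((m + 1) log (m + 2))` -/
noncomputable def F (C : ℝ) (m : ℕ) : ℝ :=
  m + C * Real.sqrt (((m : ℝ) + 1) * Real.log ((m : ℝ) + 2))

/-- `R(x) = 2 x ∫_0^∞ exp (-x (2 v + v ^ 2)) dv`, a Mills ratio -/
noncomputable def R (x : ℝ) : ℝ := 2 * x * ∫ v in Ioi (0 : ℝ), Real.exp (-(x * (2 * v + v ^ 2)))

/-- For all digit lengths in all pairs of bases:
`min(L log b, L' log b') ≤ μ (w₁ F(N(u; b, L)) log b + w₂ F(N(v; b', L')) log b')` -/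
def Bound (μ C : ℝ) (w₁ w₂ : ℕ) (u v : ℝ) : Prop :=
  ∀ b b' : ℕ, 2 ≤ b → 2 ≤ b' → ∀ L L' : ℕ,
    min (L * Real.log b) (L' * Real.log b') ≤
      μ * (w₁ * F C (N u b L) * Real.log b + w₂ * F C (N v b' L') * Real.log b')

/-- `(κ - ε) L ≤ w₁ N(u; b, L) + w₂ N(v; b, L)` for all large `L`, uniformly in the base -/
def Density (κ : ℝ) (w₁ w₂ : ℕ) (u v : ℝ) : Prop :=
  ∀ ε : ℝ, 0 < ε → ∃ L₀ : ℕ, ∀ b : ℕ, 2 ≤ b → ∀ L : ℕ, L₀ ≤ L →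
    (κ - ε) * L ≤ w₁ * N u b L + w₂ * N v b L

lemma bound_of (w₁ w₂ : ℕ) (hw₁ : 1 ≤ w₁) (hw₂ : 1 ≤ w₂) (μ c₀ : ℝ) (hμ : 1 ≤ μ) (hc₀ : 0 < c₀) :
    ∃ C : ℝ, 0 < C ∧ ∀ u v : ℝ, Sim w₁ w₂ μ c₀ u v → Bound μ C w₁ w₂ u v := two w₁ w₂ hw₁ hw₂ μ c₀ hμ hc₀

lemma density_of (w₁ w₂ : ℕ) (hw₁ : 1 ≤ w₁) (hw₂ : 1 ≤ w₂) (μ₀ : ℝ) (hμ₀ : 1 ≤ μ₀) (u v : ℝ)
    (h : ∀ η : ℝ, 0 < η → ∃ c₀ : ℝ, 0 < c₀ ∧ Sim w₁ w₂ (μ₀ + η) c₀ u v) : Density (1 / μ₀) w₁ w₂ u v :=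
  fun ε hε => asym w₁ w₂ hw₁ hw₂ μ₀ hμ₀ u v h ε hε

lemma sim_pi (x : ℚ) (hx : 0 < x) (η : ℝ) (hη : 0 < η) : ∃ c₀ : ℝ, 0 < c₀ ∧
    Sim 1 2 (3 + η) c₀ (Real.pi * Real.exp (2 * x)) (R x) := by
  obtain ⟨C, hC, h⟩ := pair_pi x hx η hη
  refine ⟨C, hC, fun p r q s hq hs => ?_⟩
  rw [pow_one, mul_comm Real.pi, R, ← mil_mills (by exact_mod_cast hx)]
  exact h p r q s hq hs

lemma sim_sqrt (x : ℚ) (hx : 0 < x) (η : ℝ) (hη : 0 < η) : ∃ c₀ : ℝ, 0 < c₀ ∧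
    Sim 1 1 (2 + η) c₀ (√(Real.pi * x) * Real.exp x) (R x) := by
  obtain ⟨C, hC, h⟩ := pair_sqrt x hx η hη
  refine ⟨C, hC, fun p r q s hq hs => ?_⟩
  rw [pow_one, pow_one, Real.sqrt_mul Real.pi_pos.le, R, ← mil_mills (by exact_mod_cast hx)]
  exact h p r q s hq hs

lemma R_half : R (1 / 2) = ∫ v in Ioi (0 : ℝ), Real.exp (-v - v ^ 2 / 2) := by
  rw [R, ← mil_mills (by norm_num), mil_half]

/-- **Main theorem.** `N(x; b, L)` is the linear complexity of the first `L` digits of `x` in base `b`.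

(1) For all `T`, `η > 0` there is `C` such that for all real `t` with `|t| ≤ T`, all bases `b, b'` and all `L, L'`:
`min(L log b, L' log b') ≤ (3 + η) (F(N(t + e; b, L)) log b + F(N(t e; b', L')) log b')`.

(2) For rational `x > 0` and `η > 0` there is `C` such that for all `b, b'`, `L, L'`:
`min(L log b, L' log b') ≤ (3 + η) (F(N(π e ^ (2 x); b, L)) log b + 2 F(N(R(x); b', L')) log b')` and
`min(L log b, L' log b') ≤ (2 + η) (F(N(√(π x) e ^ x; b, L)) log b + F(N(R(x); b', L')) log b')`.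

(3) Let `κ = ∫_0^∞ exp (-v - v ^ 2 / 2) dv = √(π e / 2) - ∑ 1 / (2 k + 1)!!`. For every `ε > 0`, all large `L`, in
all bases: `N(π + e) + N(π e) ≥ (1/3 - ε) L`, `N(π e) + 2 N(κ) ≥ (1/3 - ε) L`,
`N(√(π e / 2)) + N(κ) ≥ (1/2 - ε) L`. -/
theorem result :
    (∀ T η : ℝ, 0 < η → ∃ C : ℝ, 0 < C ∧ ∀ t : ℝ, |t| ≤ T →
      Bound (3 + η) C 1 1 (t + Real.exp 1) (t * Real.exp 1)) ∧
    (∀ x : ℚ, 0 < x → ∀ η : ℝ, 0 < η → ∃ C : ℝ, 0 < C ∧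
      Bound (3 + η) C 1 2 (Real.pi * Real.exp (2 * x)) (R x) ∧
      Bound (2 + η) C 1 1 (√(Real.pi * x) * Real.exp x) (R x)) ∧
    (∃ κ : ℝ, κ = ∫ v in Ioi (0 : ℝ), Real.exp (-v - v ^ 2 / 2) ∧
      κ = √(Real.pi * Real.exp 1 / 2) - ∑' k : ℕ, 1 / (((2 * k + 1)‼ : ℕ) : ℝ) ∧
      Density (1 / 3) 1 1 (Real.pi + Real.exp 1) (Real.pi * Real.exp 1) ∧
      Density (1 / 3) 1 2 (Real.pi * Real.exp 1) κ ∧
      Density (1 / 2) 1 1 (√(Real.pi * Real.exp 1 / 2)) κ) := by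
  refine ⟨fun T η hη => ?_, fun x hx η hη => ?_, R (1 / 2), R_half, ?_, ?_, ?_, ?_⟩
  · obtain ⟨c₀, hc₀, h⟩ := sim_sum_prod T η hη
    obtain ⟨C, hC, hmain⟩ := bound_of 1 1 le_rfl le_rfl (3 + η) c₀ (by linarith) hc₀
    exact ⟨C, hC, fun t ht => hmain _ _ (h t ht)⟩
  · obtain ⟨c₀, hc₀, h⟩ := sim_pi x hx η hη
    obtain ⟨C, hC, hmain⟩ := bound_of 1 2 le_rfl (by norm_num) (3 + η) c₀ (by linarith) hc₀
    obtain ⟨c₁, hc₁, h'⟩ := sim_sqrt x hx η hη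
    obtain ⟨C', hC', hmain'⟩ := bound_of 1 1 le_rfl le_rfl (2 + η) c₁ (by linarith) hc₁
    have hmono : ∀ (D D' : ℝ) (hD : D ≤ D') (m : ℕ), F D m ≤ F D' m := by
      intro D D' hD m
      unfold F
      gcongr
    have hB : ∀ (μ D D' : ℝ) (_ : 0 ≤ μ) (_ : D ≤ D') (w₁ w₂ : ℕ) (u v : ℝ), Bound μ D w₁ w₂ u v →
        Bound μ D' w₁ w₂ u v := by
      intro μ D D' hμ hD w₁ w₂ u v hb b b' h2 h2' L L'
      refine (hb b b' h2 h2' L L').trans ?_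
      have hl : 0 ≤ Real.log b := Real.log_nonneg (by exact_mod_cast (by omega : 1 ≤ b))
      have hl' : 0 ≤ Real.log b' := Real.log_nonneg (by exact_mod_cast (by omega : 1 ≤ b'))
      have h3 := hmono D D' hD (N u b L)
      have h4 := hmono D D' hD (N v b' L')
      gcongr
    exact ⟨max C C', by positivity, hB _ _ _ (by linarith) (le_max_left _ _) _ _ _ _ (hmain _ _ h),
      hB _ _ _ (by linarith) (le_max_right _ _) _ _ _ _ (hmain' _ _ h')⟩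
  · rw [R, ← mil_mills (by norm_num)]
    linarith [ramanujan]
  · refine density_of 1 1 le_rfl le_rfl 3 (by norm_num) _ _ fun η hη => ?_
    obtain ⟨c₀, hc₀, h⟩ := sim_sum_prod |Real.pi| η hη
    exact ⟨c₀, hc₀, h _ le_rfl⟩
  · refine density_of 1 2 le_rfl (by norm_num) 3 (by norm_num) _ _ fun η hη => ?_
    obtain ⟨c₀, hc₀, h⟩ := sim_pi (1 / 2) (by norm_num) η hη
    refine ⟨c₀, hc₀, ?_⟩
    have e1 : (((1 / 2 : ℚ) : ℚ) : ℝ) = 1 / 2 := by norm_num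
    rw [e1, show (2 : ℝ) * (1 / 2) = 1 by norm_num] at h
    exact h
  · refine density_of 1 1 le_rfl le_rfl 2 (by norm_num) _ _ fun η hη => ?_
    obtain ⟨c₀, hc₀, h⟩ := sim_sqrt (1 / 2) (by norm_num) η hη
    refine ⟨c₀, hc₀, ?_⟩
    have e1 : (((1 / 2 : ℚ) : ℚ) : ℝ) = 1 / 2 := by norm_num
    rw [e1] at h
    have e2 : √(Real.pi * (1 / 2)) * Real.exp (1 / 2) = √(Real.pi * Real.exp 1 / 2) := by
      rw [Real.exp_half 1, ← Real.sqrt_mul (by positivity)]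
      congr 1
      ring
    rw [e2] at h
    exact h

end Pool.Agent.Results.MP_a49cf6_nt.DigitsInTwoBases
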