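import Pool.Agent.N493.SimU4
import Pool.Agent.TH456.TM.E
import Pool.Agent.H43R2.Cplx.EMeas

set_option autoImplicit false

/-!
# Simultaneous rational approximation of `e` and of arbitrary real numbers

Let `ξ_1, …, ξ_n` be real numbers and `l > (√5 - 1) / 2 = 0.618...`. If for every `X ∈ [Y, Z]` some
`q ≤ X` satisfies `‖q e‖, ‖q ξ_j‖ ≤ X ^ (-l)`, then all `ξ_j` are close to numbers of
`(ℤ + ℤ e) / d` with one common small denominator `d`; the constants depend neither on the numbers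
`ξ_j` nor on `n`. If this holds for all `X ≥ Y`, then all `ξ_j` lie in `(ℤ + ℤ e) / d`. For
`ξ = (π + e, π e)` every interval `[Y, Y ^ M]` contains an `X` for which there is no such `q`.
-/

namespace Pool.Agent.Results.MP_a49cf6_nt.SimultaneousWithE

open Filter Topology Polynomial Pool.Agent.N493.Sim Pool.Agent.N493.NRNu

/-- there is `1 ≤ q ≤ X` with `‖q e‖ ≤ X ^ (-l)` and `‖q ξ_j‖ ≤ X ^ (-l)` for all `j` -/
def Good {n : ℕ} (ξ : Fin n → ℝ) (l X : ℝ) : Prop :=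
  ∃ q : ℕ, 1 ≤ q ∧ (q : ℝ) ≤ X ∧ (∃ p : ℤ, |(q : ℝ) * Real.exp 1 - p| ≤ X ^ (-l)) ∧
    ∀ j, ∃ r : ℤ, |(q : ℝ) * ξ j - r| ≤ X ^ (-l)

/-- the family `e, ξ_1, …, ξ_n` -/
noncomputable def fam {n : ℕ} (ξ : Fin n → ℝ) (o : Option (Fin n)) : ℝ := o.elim (Real.exp 1) ξ

theorem good_iff {n : ℕ} (ξ : Fin n → ℝ) (l X : ℝ) : Good ξ l X ↔ Uni (fam ξ) l X := by
  unfold Good Uni
  refine exists_congr fun q => ?_
  rw [Option.forall]
  rfl

theorem thr (l : ℝ) (hl : (Real.sqrt 5 - 1) / 2 < l) : 1 / 2 < l ∧ 1 * ((1 - l) / l) < l := by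
  have h5 : Real.sqrt 5 ^ 2 = 5 := Real.sq_sqrt (by norm_num)
  have h52 : 2 < Real.sqrt 5 := by
    rw [Real.lt_sqrt (by norm_num)]; norm_num
  have hl2 : 1 / 2 < l := by linarith
  refine ⟨hl2, ?_⟩
  rw [one_mul, div_lt_iff₀ (by linarith)]
  nlinarith

/-- the measure of irrationality of `e` -/
theorem nu_e (ν : ℝ) (hν : 1 < ν) : ∃ c : ℝ, 0 < c ∧ Nu (Real.exp 1) ν c := by
  obtain ⟨c, hc, h⟩ := Pool.Agent.H43R2.Cplx.EMeas.measure (ν - 1) (by linarith)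
  refine ⟨c, hc, fun Q hQ m => ?_⟩
  have h1 := h Q hQ m
  have e : (1 : ℝ) + (ν - 1) = ν := by ring
  rwa [e] at h1

theorem exists_nu (l κ η μ : ℝ) (hl : (Real.sqrt 5 - 1) / 2 < l) (hκ : 1 < κ * l)
    (hη : (1 - l) / l < η) (hμ : μ < 2 * l) : ∃ ν : ℝ, 1 < ν ∧ ν * ((1 - l) / l) < l ∧ ν < κ * l ∧
      ν * ((1 - l) / l) < η ∧ μ ≤ l + l / ν := by
  have hl2 := thr l hl
  have c1 : Tendsto (fun ν : ℝ => ν * ((1 - l) / l)) (𝓝 1) (𝓝 (1 * ((1 - l) / l))) :=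
    tendsto_id.mul_const _
  have c2 : Tendsto (fun ν : ℝ => l + l / ν) (𝓝 1) (𝓝 (l + l / 1)) :=
    (tendsto_const_nhds.div tendsto_id one_ne_zero).const_add l
  have e1 := c1.eventually_lt_const hl2.2
  have e2 := c1.eventually_lt_const (show 1 * ((1 - l) / l) < η by rwa [one_mul])
  have e3 := c2.eventually_const_lt (show μ < l + l / 1 by rw [div_one]; linarith)
  have e4 : ∀ᶠ ν : ℝ in 𝓝 1, ν < κ * l := eventually_lt_nhds hκ
  obtain ⟨ν, ⟨⟨⟨h1, h2⟩, h3⟩, h4⟩, h5⟩ :=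
    (((((e1.and e2).and e3).and e4).filter_mono nhdsWithin_le_nhds).and
      (self_mem_nhdsWithin : ∀ᶠ ν : ℝ in 𝓝[>] 1, ν ∈ Set.Ioi 1)).exists
  exact ⟨ν, h5, h1, h4, h2, h3.le⟩

theorem interval (l κ η μ : ℝ) (hl : (Real.sqrt 5 - 1) / 2 < l) (hl1 : l ≤ 1) (hκ : 1 < κ * l)
    (hη : (1 - l) / l < η) (hμ : μ < 2 * l) :
    ∃ Y₀ : ℝ, 2 ≤ Y₀ ∧ ∀ (n : ℕ) (ξ : Fin n → ℝ) (Y Z : ℝ), Y₀ ≤ Y → Y ^ κ ≤ Z →
      (∀ X : ℝ, Y ≤ X → X ≤ Z → Good ξ l X) →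
      ∃ d : ℤ, d ≠ 0 ∧ |(d : ℝ)| ≤ Y ^ η ∧ ∀ j, ∃ a b : ℤ, |(b : ℝ)| ≤ Y ^ η ∧
        |(a : ℝ) + b * Real.exp 1 + d * ξ j| ≤ Y ^ η * Z ^ (-μ) := by
  obtain ⟨ν, hν1, hν2, hν3, hν4, hν5⟩ := exists_nu l κ η μ hl hκ hη hμ
  obtain ⟨c, hc, hNu⟩ := nu_e ν hν1
  have hl0 : 0 < l := by linarith [(thr l hl).1]
  have hκ1 : 1 ≤ κ := by
    by_contra h
    push Not at h
    nlinarith
  obtain ⟨Y0, hY0, h⟩ := local_sim (Real.exp 1) ν c (by linarith) hc hNu l κ η hl0 hl1 hν2 hκ1 hν3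
    hν4
  refine ⟨Y0, hY0, fun n ξ Y Z hY hZ hU => ?_⟩
  obtain ⟨d, hd0, hd1, hd2⟩ := h (Option (Fin n)) (fam ξ) none rfl Y Z hY hZ
    fun X h1 h2 => (good_iff ξ l X).1 (hU X h1 h2)
  refine ⟨d, hd0, hd1, fun j => ?_⟩
  obtain ⟨a, b, hb, hab⟩ := hd2 (some j)
  refine ⟨a, b, hb, hab.trans ?_⟩
  have hY2 : 2 ≤ Y := hY0.trans hY
  have hYκ : 1 ≤ Y ^ κ := Real.one_le_rpow (by linarith) (by linarith)
  refine mul_le_mul_of_nonneg_left ?_ (by positivity)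
  exact Real.rpow_le_rpow_of_exponent_le (hYκ.trans hZ) (by linarith)

theorem exact (l η : ℝ) (hl : (Real.sqrt 5 - 1) / 2 < l) (hl1 : l ≤ 1) (hη : (1 - l) / l < η) :
    ∃ Y₀ : ℝ, 2 ≤ Y₀ ∧ ∀ (n : ℕ) (ξ : Fin n → ℝ) (Y : ℝ), Y₀ ≤ Y →
      (∀ X : ℝ, Y ≤ X → Good ξ l X) →
      ∃ d : ℤ, d ≠ 0 ∧ |(d : ℝ)| ≤ Y ^ η ∧ ∀ j, ∃ a b : ℤ, |(b : ℝ)| ≤ Y ^ η ∧
        (a : ℝ) + b * Real.exp 1 + d * ξ j = 0 := by
  have hl0 : 0 < l := by linarith [(thr l hl).1]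
  obtain ⟨ν, hν1, hν2, -, hν4, -⟩ := exists_nu l (1 / l + 1) η 0 hl
    (by rw [add_mul, one_div, inv_mul_cancel₀ hl0.ne']; linarith) hη (by linarith)
  obtain ⟨c, hc, hNu⟩ := nu_e ν hν1
  obtain ⟨Y0, hY0, h⟩ := exact_sim (Real.exp 1) ν c (by linarith) hc hNu l η hl0 hl1 hν2 hν4
  refine ⟨Y0, hY0, fun n ξ Y hY hU => ?_⟩
  obtain ⟨d, hd0, hd1, hd2⟩ := h (Option (Fin n)) (fam ξ) none rfl Y hY
    fun X h1 => (good_iff ξ l X).1 (hU X h1)
  exact ⟨d, hd0, hd1, fun j => hd2 (some j)⟩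

theorem iff_all {n : ℕ} (ξ : Fin n → ℝ) (l : ℝ) (hl : (Real.sqrt 5 - 1) / 2 < l) (hl1 : l < 1) :
    (∀ j, ∃ a b : ℚ, ξ j = a + b * Real.exp 1) ↔ ∃ Y : ℝ, ∀ X : ℝ, Y ≤ X → Good ξ l X := by
  have hl0 : 0 < l := by linarith [(thr l hl).1]
  obtain ⟨ν, hν1, hν2, -, -, -⟩ := exists_nu l (1 / l + 1) ((1 - l) / l + 1) 0 hl
    (by rw [add_mul, one_div, inv_mul_cancel₀ hl0.ne']; linarith) (by linarith) (by linarith)
  obtain ⟨c, hc, hNu⟩ := nu_e ν hν1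
  have h := iff_sim (Real.exp 1) ν c (by linarith) hc hNu l hl0 hl1 hν2 (fam ξ) none rfl
  simp only [good_iff]
  rw [← h, Option.forall]
  constructor
  · intro h1
    exact ⟨⟨0, 1, by simp [fam]⟩, h1⟩
  · intro h1
    exact h1.2

/-- no good simultaneous approximations of `e`, `π + e`, `π e` for some `X` in every `[Y, Y ^ M]` -/
theorem gap (l : ℝ) (hl : (Real.sqrt 5 - 1) / 2 < l) : ∃ M Y₁ : ℝ, ∀ Y : ℝ, Y₁ ≤ Y →
    ∃ X : ℝ, Y ≤ X ∧ X ≤ Y ^ M ∧ ¬ Good ![Real.pi + Real.exp 1, Real.pi * Real.exp 1] l X := by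
  -- reduction to `l ≤ 1`
  have hred : ∃ l' : ℝ, l' ≤ l ∧ l' ≤ 1 ∧ (Real.sqrt 5 - 1) / 2 < l' := by
    refine ⟨min l 1, min_le_left _ _, min_le_right _ _, lt_min hl ?_⟩
    have h52 : Real.sqrt 5 < 3 := by
      rw [Real.sqrt_lt' (by norm_num)]; norm_num
    linarith
  obtain ⟨l', hl'l, hl'1, hl'⟩ := hred
  have hl'2 := (thr l' hl').1
  have h52 : 2.2 < Real.sqrt 5 := by
    rw [Real.lt_sqrt (by norm_num)]; norm_num
  obtain ⟨Y0, hY0, h⟩ := interval l' 2 1 1 hl' hl'1 (by linarith)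
    (by rw [div_lt_one (by linarith)]; linarith) (by linarith)
  obtain ⟨κ₁, c₁, hκ₁, hc₁, hP₁⟩ := Pool.Agent.TH456.TM.measT_e 2
  obtain ⟨κ₂, c₂, hκ₂, hc₂, hP₂⟩ := Pool.Agent.TH456.TM.measT_pi 1
  obtain ⟨M, hM⟩ : ∃ M : ℝ, M = κ₁ + κ₂ + 2 := ⟨_, rfl⟩
  have t1 := (tendsto_rpow_neg_atTop (show (0 : ℝ) < M - 1 - κ₁ by linarith)).const_mul
    ((13 : ℝ) ^ κ₁ * 4)
  have t2 := (tendsto_rpow_neg_atTop (show (0 : ℝ) < M - 1 - κ₂ by linarith)).const_mul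
    ((13 : ℝ) ^ κ₂ * 4)
  rw [mul_zero] at t1 t2
  obtain ⟨B1, hB1⟩ := eventually_atTop.1 (t1.eventually_lt_const hc₁)
  obtain ⟨B2, hB2⟩ := eventually_atTop.1 (t2.eventually_lt_const hc₂)
  refine ⟨M, max Y0 (max B1 B2), fun Y hY => ?_⟩
  have hYY0 : Y0 ≤ Y := (le_max_left _ _).trans hY
  have hY2 : 2 ≤ Y := hY0.trans hYY0
  have hYB1 : B1 ≤ Y := ((le_max_left _ _).trans (le_max_right _ _)).trans hY
  have hYB2 : B2 ≤ Y := ((le_max_right _ _).trans (le_max_right _ _)).trans hY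
  have hY0' : 0 < Y := by linarith
  by_contra hI
  push Not at hI
  obtain ⟨d, hd0, hd1, hd2⟩ := h 2 ![Real.pi + Real.exp 1, Real.pi * Real.exp 1] Y (Y ^ M) hYY0
    (Real.rpow_le_rpow_of_exponent_le (by linarith) (by linarith)) (fun X h1 h2 => by
      have h3 := hI X h1 h2
      rw [good_iff] at h3 ⊢
      exact h3.mono _ _ _ _ (by linarith) hl'l)
  obtain ⟨a, b, hb, hab⟩ := hd2 0
  obtain ⟨a', b', hb', hab'⟩ := hd2 1
  simp only [Matrix.cons_val_zero, Matrix.cons_val_one] at hab hab'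
  rw [Real.rpow_one] at hd1 hb hb' hab hab'
  obtain ⟨δ, hδ⟩ : ∃ δ : ℝ, δ = Y * (Y ^ M) ^ (-1 : ℝ) := ⟨_, rfl⟩
  rw [← hδ] at hab hab'
  have hδ' : δ = Y ^ (-(M - 1)) := by
    rw [hδ, ← Real.rpow_mul hY0'.le]
    nth_rewrite 1 [← Real.rpow_one Y]
    rw [← Real.rpow_add hY0']
    congr 1
    ring
  have hδ0 : 0 < δ := by rw [hδ']; positivity
  have hδ1 : δ ≤ 1 := by
    rw [hδ']
    exact Real.rpow_le_one_of_one_le_of_nonpos (by linarith) (by linarith)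
  have hpi := Real.pi_lt_d2
  have hpi3 := Real.pi_gt_three
  have he := Real.exp_one_lt_d9
  have he2 := Real.exp_one_gt_d9
  obtain ⟨e, hedef⟩ : ∃ e : ℝ, e = Real.exp 1 := ⟨_, rfl⟩
  rw [← hedef] at he he2 hab hab'
  have hb1 := abs_le.1 hb
  have hb1' := abs_le.1 hb'
  have hd1' := abs_le.1 hd1
  have hab1 := abs_le.1 hab
  have hab1' := abs_le.1 hab'
  have bnd : ∀ x s S : ℝ, -Y ≤ x ∧ x ≤ Y → 0 ≤ s → s ≤ S → -(Y * S) ≤ x * s ∧ x * s ≤ Y * S := by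
    intro x s S hx hs hS
    constructor <;> nlinarith [mul_le_mul_of_nonneg_left hS hY0'.le]
  have hpe : Real.pi * e ≤ 9 := by nlinarith
  have a1 := bnd b e 2.72 hb1 (by linarith) (by linarith)
  have a2 := bnd b' e 2.72 hb1' (by linarith) (by linarith)
  have a3 := bnd d (Real.pi + e) 6 hd1' (by linarith) (by linarith)
  have a4 := bnd d (Real.pi * e) 9 hd1' (by positivity) hpe
  have ha : |(a : ℝ)| ≤ 10 * Y := by
    rw [abs_le]
    constructor <;> linarith [a1.1, a1.2, a3.1, a3.2]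
  have ha' : |(a' : ℝ)| ≤ 13 * Y := by
    rw [abs_le]
    constructor <;> linarith [a2.1, a2.2, a4.1, a4.2]
  have hH : 1 ≤ 13 * Y := by linarith
  have pw : ∀ κ : ℝ, (13 * Y) ^ κ * (4 * δ) = (13 : ℝ) ^ κ * 4 * Y ^ (-(M - 1 - κ)) := by
    intro κ
    rw [Real.mul_rpow (by norm_num) hY0'.le, hδ']
    have : Y ^ (-(M - 1 - κ)) = Y ^ κ * Y ^ (-(M - 1)) := by
      rw [← Real.rpow_add hY0']
      congr 1
      ring
    rw [this]
    ring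
  by_cases hPz : (C (b + d) * X ^ 2 + C (a - b') * X + C (-a') : ℤ[X]) = 0
  · have q2 : (C (b + d) * X ^ 2 + C (a - b') * X + C (-a') : ℤ[X]).coeff 2 = 0 := by rw [hPz]; simp
    have q1 : (C (b + d) * X ^ 2 + C (a - b') * X + C (-a') : ℤ[X]).coeff 1 = 0 := by rw [hPz]; simp
    rw [coeff_add, coeff_add, coeff_C_mul, coeff_C_mul, coeff_X_pow, coeff_X, coeff_C] at q2 q1
    norm_num at q2 q1
    have hQ0 : (C d * X + C a : ℤ[X]) ≠ 0 := by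
      intro h0
      have : (C d * X + C a : ℤ[X]).coeff 1 = 0 := by rw [h0]; simp
      rw [coeff_add, coeff_C_mul, coeff_X, coeff_C] at this
      norm_num at this
      exact hd0 this
    have h1 := hP₂ (C d * X + C a) hQ0 (natDegree_linear_le) (13 * Y) hH (by
      intro j
      rw [coeff_add, coeff_C_mul, coeff_X, coeff_C]
      by_cases hj0 : j = 0
      · subst hj0
        norm_num
        linarith
      · by_cases hj1 : j = 1
        · subst hj1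
          norm_num
          linarith
        · rw [if_neg (Ne.symm hj1), if_neg hj0]
          norm_num
          linarith)
    have e1 : aeval (Real.pi : ℂ) (C d * X + C a : ℤ[X]) = (((d : ℝ) * Real.pi + a : ℝ) : ℂ) := by
      simp
    rw [e1, Complex.norm_real, Real.norm_eq_abs] at h1
    have e2 : (d : ℝ) * Real.pi + a = a + b * e + d * (Real.pi + e) := by
      have : (b : ℝ) + d = 0 := by exact_mod_cast q2
      linear_combination -e * this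
    rw [e2] at h1
    have h2 : (13 * Y) ^ κ₂ * |(a : ℝ) + b * e + d * (Real.pi + e)| ≤ (13 * Y) ^ κ₂ * (4 * δ) :=
      mul_le_mul_of_nonneg_left (by linarith) (by positivity)
    rw [pw] at h2
    have h3 := hB2 Y hYB2
    linarith
  · have h1 := hP₁ _ hPz (by
      refine (natDegree_add_le _ _).trans (max_le ((natDegree_add_le _ _).trans (max_le ?_ ?_)) ?_)
      · exact natDegree_C_mul_X_pow_le _ _
      · exact (natDegree_C_mul_le _ _).trans (natDegree_X_le.trans (by norm_num))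
      · rw [natDegree_C]; norm_num) (13 * Y) hH (by
      intro j
      have k1 : |((b : ℝ) + d)| ≤ 13 * Y := (abs_add_le _ _).trans (by linarith)
      have k2 : |((a : ℝ) - b')| ≤ 13 * Y := (abs_sub _ _).trans (by linarith)
      rw [coeff_add, coeff_add, coeff_C_mul, coeff_C_mul, coeff_X_pow, coeff_X, coeff_C]
      by_cases hj0 : j = 0
      · subst hj0
        norm_num
        exact ha'
      · by_cases hj1 : j = 1
        · subst hj1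
          norm_num
          exact k2
        · by_cases hj2 : j = 2
          · subst hj2
            norm_num
            exact k1
          · rw [if_neg (Ne.symm hj1), if_neg hj0, if_neg hj2]
            norm_num
            linarith)
    have e1 : aeval ((Real.exp 1 : ℝ) : ℂ) (C (b + d) * X ^ 2 + C (a - b') * X + C (-a') : ℤ[X]) =
        ((e * (a + b * e + d * (Real.pi + e)) - (a' + b' * e + d * (Real.pi * e)) : ℝ) : ℂ) := by
      rw [hedef]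
      simp only [map_add, map_mul, aeval_C, aeval_X, map_pow]
      simp only [algebraMap_int_eq, eq_intCast]
      push_cast
      ring
    rw [e1, Complex.norm_real, Real.norm_eq_abs] at h1
    have h4 : |e * (a + b * e + d * (Real.pi + e)) - (a' + b' * e + d * (Real.pi * e))| ≤ 4 * δ := by
      refine (abs_sub _ _).trans ?_
      rw [abs_mul, abs_of_nonneg (by linarith : 0 ≤ e)]
      have := mul_le_mul (by linarith : e ≤ 3) hab (abs_nonneg _) (by norm_num)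
      linarith
    have h2 := mul_le_mul_of_nonneg_left h4 (show 0 ≤ (13 * Y) ^ κ₁ by positivity)
    rw [pw] at h2
    have h3 := hB1 Y hYB1
    linarith

/-- Let `(√5 - 1) / 2 < l ≤ 1`. (1) Good simultaneous approximations of `e, ξ_1, …, ξ_n` for all
`X ∈ [Y, Z]` give approximate relations `a_j + b_j e + d ξ_j` with a common coefficient `d`; good
approximations for all `X ≥ Y` give exact relations. (2) If also `l < 1`: all `ξ_j` lie in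
`ℚ + ℚ e` if and only if there are good approximations for all large `X`. (3) For `e`, `π + e`,
`π e` every interval `[Y, Y ^ M]`, `Y` large, contains an `X` without good approximations. -/
theorem result :
    (∀ l η : ℝ, (Real.sqrt 5 - 1) / 2 < l → l ≤ 1 → (1 - l) / l < η →
      (∀ κ μ : ℝ, 1 < κ * l → μ < 2 * l → ∃ Y₀ : ℝ, ∀ (n : ℕ) (ξ : Fin n → ℝ) (Y Z : ℝ),
        Y₀ ≤ Y → Y ^ κ ≤ Z → (∀ X : ℝ, Y ≤ X → X ≤ Z → Good ξ l X) →
        ∃ d : ℤ, d ≠ 0 ∧ |(d : ℝ)| ≤ Y ^ η ∧ ∀ j, ∃ a b : ℤ, |(b : ℝ)| ≤ Y ^ η ∧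
          |(a : ℝ) + b * Real.exp 1 + d * ξ j| ≤ Y ^ η * Z ^ (-μ)) ∧
      (∃ Y₀ : ℝ, ∀ (n : ℕ) (ξ : Fin n → ℝ) (Y : ℝ), Y₀ ≤ Y → (∀ X : ℝ, Y ≤ X → Good ξ l X) →
        ∃ d : ℤ, d ≠ 0 ∧ |(d : ℝ)| ≤ Y ^ η ∧ ∀ j, ∃ a b : ℤ, |(b : ℝ)| ≤ Y ^ η ∧
          (a : ℝ) + b * Real.exp 1 + d * ξ j = 0)) ∧
    (∀ (n : ℕ) (ξ : Fin n → ℝ) (l : ℝ), (Real.sqrt 5 - 1) / 2 < l → l < 1 →
      ((∀ j, ∃ a b : ℚ, ξ j = a + b * Real.exp 1) ↔ ∃ Y : ℝ, ∀ X : ℝ, Y ≤ X → Good ξ l X)) ∧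
    (∀ l : ℝ, (Real.sqrt 5 - 1) / 2 < l → ∃ M Y₁ : ℝ, ∀ Y : ℝ, Y₁ ≤ Y → ∃ X : ℝ, Y ≤ X ∧
      X ≤ Y ^ M ∧ ¬ Good ![Real.pi + Real.exp 1, Real.pi * Real.exp 1] l X) := by
  refine ⟨fun l η hl hl1 hη => ⟨fun κ μ hκ hμ => ?_, ?_⟩, fun n ξ l hl hl1 => iff_all ξ l hl hl1, gap⟩
  · obtain ⟨Y0, -, h⟩ := interval l κ η μ hl hl1 hκ hη hμ
    exact ⟨Y0, h⟩
  · obtain ⟨Y0, -, h⟩ := exact l η hl hl1 hη
    exact ⟨Y0, h⟩

end Pool.Agent.Results.MP_a49cf6_nt.SimultaneousWithE
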