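import Pool.Agent.N538.MR.FinT
import Pool.Agent.N538.MR.MeasE

set_option autoImplicit false

/-!
# Near relations between `1`, `π + e` and `π e`

Let `ξ` be a real number (for instance `ξ = π`). By Dirichlet's theorem there are, at every scale
`X`, integers `a, b, c`, not all zero, of absolute value at most `X`, with
`|a + b (ξ + e) + c ξ e| ≤ C X ^ (-2)`, and an integer `1 ≤ q ≤ X` such that `q (ξ + e)` and `q ξ e`
are within `C X ^ (-1/2)` of the integers. We show that the exponents `w > 2 + √3 = 3.73...` and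
`s > √3 - 1 = 0.73...` are possible at all large scales only if `1, ξ + e, ξ e` are linearly dependent
over `ℚ` (for instance because `ξ + e` or `ξ e` is rational). On an interval `[Y, Z]` of scales, near
relations with an exponent `w > 2 + √3` come from one vector of height at most `Y ^ κ`, for every
`κ ≥ 1` with `κ (w - 3) > 2`; for `w > 5` the near relations at one scale are proportional. The
constants do not depend on `ξ`.
-/

namespace Pool.Agent.Results.MP_a49cf6_nt.SumAndProductAtAllScales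

/-- `a + b (ξ + e) + c ξ e` for `v = (a, b, c)` -/
noncomputable def value (ξ : ℝ) (v : Fin 3 → ℤ) : ℝ :=
  v 0 + v 1 * (ξ + Real.exp 1) + v 2 * (ξ * Real.exp 1)

/-- the height `max (|a|, |b|, |c|)` of `v = (a, b, c)` -/
def height (v : Fin 3 → ℤ) : ℕ := Finset.univ.sup fun i => (v i).natAbs

/-- `v = (a, b, c)` is nonzero, `|a|, |b|, |c| ≤ H` and `|a + b (ξ + e) + c ξ e| ≤ δ` -/
def Near (ξ H δ : ℝ) (v : Fin 3 → ℤ) : Prop := v ≠ 0 ∧ (height v : ℝ) ≤ H ∧ |value ξ v| ≤ δ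

/-- for some integer `1 ≤ q ≤ X`, both `q (ξ + e)` and `q ξ e` are within `δ` of an integer -/
def Simultaneous (ξ X δ : ℝ) : Prop := ∃ q p p' : ℤ, 1 ≤ q ∧ (q : ℝ) ≤ X ∧
  |q * (ξ + Real.exp 1) - p| ≤ δ ∧ |q * (ξ * Real.exp 1) - p'| ≤ δ

open Pool.Agent.N538.MR

lemma value_eq (ξ : ℝ) (v : Fin 3 → ℤ) : LT (Real.exp 1) ξ v = value ξ v := rfl

lemma height_eq (v : Fin 3 → ℤ) : ht v = height v := rfl

/-- rational and integral relations -/
theorem dependent_iff (ξ : ℝ) :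
    (¬ LinearIndependent ℚ ![(1 : ℝ), ξ + Real.exp 1, ξ * Real.exp 1]) ↔
      ∃ v : Fin 3 → ℤ, v ≠ 0 ∧ value ξ v = 0 := by
  rw [Fintype.not_linearIndependent_iff]
  constructor
  · rintro ⟨g, hg, i, hi⟩
    rw [Fin.sum_univ_three] at hg
    simp only [Matrix.cons_val_zero, Matrix.cons_val_one, Matrix.cons_val, Rat.smul_def] at hg
    have e : ∀ k : Fin 3, ((g k).den : ℝ) * (g k : ℝ) = (g k).num := by
      intro k
      have := Rat.den_mul_eq_num (g k)
      exact_mod_cast congrArg (fun z : ℚ => (z : ℝ)) this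
    have d : ∀ k : Fin 3, ((g k).den : ℤ) ≠ 0 := fun k => by exact_mod_cast (g k).den_nz
    refine ⟨![(g 0).num * (g 1).den * (g 2).den, (g 1).num * (g 0).den * (g 2).den,
      (g 2).num * (g 0).den * (g 1).den], ?_, ?_⟩
    · intro h0
      have h1 := congrFun h0 0
      have h2 := congrFun h0 1
      have h3 := congrFun h0 2
      simp only [Matrix.cons_val, Pi.zero_apply] at h1 h2 h3
      have hn : (g i).num ≠ 0 := Rat.num_ne_zero.2 hi
      fin_cases i
      · exact hn (by simpa [d 1, d 2] using h1)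
      · exact hn (by simpa [d 0, d 2] using h2)
      · exact hn (by simpa [d 0, d 1] using h3)
    · unfold value
      simp only [Matrix.cons_val]
      push_cast
      rw [← e 0, ← e 1, ← e 2]
      linear_combination ((g 0).den : ℝ) * ((g 1).den : ℝ) * ((g 2).den : ℝ) * hg
  · rintro ⟨v, hv0, hv⟩
    refine ⟨fun i => (v i : ℚ), ?_, ?_⟩
    · rw [Fin.sum_univ_three]
      simp only [Matrix.cons_val_zero, Matrix.cons_val_one, Matrix.cons_val, Rat.smul_def]
      push_cast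
      unfold value at hv
      linarith
    · by_contra hcon
      push Not at hcon
      apply hv0
      funext i
      have := hcon i
      exact_mod_cast this

/-- (1) Let `w > 2 + √3`, `κ ≥ 1` and `κ (w - 3) > 2`. For all `Y ≥ Y₀(w, κ)` and all real `ξ`: if
`Z ≥ Y` and at every scale `X` with `Y ≤ X ≤ Z` there are integers `a, b, c`, not all zero, of absolute
value at most `X`, with `|a + b (ξ + e) + c ξ e| ≤ X ^ (-w)`, then there are integers `a, b, c`, not
all zero, of absolute value at most `Y ^ κ`, with `|a + b (ξ + e) + c ξ e| ≤ Z ^ (-w)`; if there are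
such integers at all scales `X ≥ Y`, then `a + b (ξ + e) + c ξ e = 0` for some such integers of
absolute value at most `Y ^ κ`. (2) If `w > 5`, then for all large `X` and all real `ξ` any two near
relations at the scale `X` are proportional. (3) For every real `ξ` (in particular `ξ = π`) the
following are equivalent: `1, ξ + e, ξ e` are linearly dependent over `ℚ`; there are near relations at
all large scales for some exponent `w > 2 + √3`; `ξ + e` and `ξ e` are simultaneously approximable at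
all large scales with some exponent `s > √3 - 1`. -/
theorem result :
    (∀ w κ : ℝ, 2 + Real.sqrt 3 < w → 1 ≤ κ → 2 < κ * (w - 3) →
      ∃ Y₀ : ℝ, 1 ≤ Y₀ ∧ ∀ ξ Y : ℝ, Y₀ ≤ Y →
        (∀ Z : ℝ, Y ≤ Z → (∀ X : ℝ, Y ≤ X → X ≤ Z → ∃ v, Near ξ X (X ^ (-w)) v) →
          ∃ v, Near ξ (Y ^ κ) (Z ^ (-w)) v) ∧
        ((∀ X : ℝ, Y ≤ X → ∃ v, Near ξ X (X ^ (-w)) v) → ∃ v, Near ξ (Y ^ κ) 0 v)) ∧
    (∀ w : ℝ, 5 < w → ∃ X₀ : ℝ, ∀ ξ X : ℝ, X₀ ≤ X → ∀ u v : Fin 3 → ℤ,
      Near ξ X (X ^ (-w)) u → Near ξ X (X ^ (-w)) v →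
        ∃ a b : ℤ, ¬ (a = 0 ∧ b = 0) ∧ a • u + b • v = 0) ∧
    (∀ ξ : ℝ, ((¬ LinearIndependent ℚ ![(1 : ℝ), ξ + Real.exp 1, ξ * Real.exp 1]) ↔
      ∃ w Y : ℝ, 2 + Real.sqrt 3 < w ∧ ∀ X : ℝ, Y ≤ X → ∃ v, Near ξ X (X ^ (-w)) v) ∧
      ((¬ LinearIndependent ℚ ![(1 : ℝ), ξ + Real.exp 1, ξ * Real.exp 1]) ↔
      ∃ s Y : ℝ, Real.sqrt 3 - 1 < s ∧ ∀ X : ℝ, Y ≤ X → Simultaneous ξ X (X ^ (-s)))) := by
  refine ⟨?_, ?_, fun ξ => ⟨?_, ?_⟩⟩
  · intro w κ hw hκ1 hκ
    obtain ⟨Y1, hY1, h1⟩ := taLoc tri_e hw hκ1 hκ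
    obtain ⟨Y2, hY2, h2⟩ := taExact tri_e hw hκ1 hκ
    refine ⟨max Y1 Y2, hY1.trans (le_max_left _ _), fun ξ Y hY => ⟨fun Z hZ hU => ?_, fun hU => ?_⟩⟩
    · exact h1 ξ Y Z ((le_max_left _ _).trans hY) hZ hU
    · obtain ⟨v, hv0, hv1, hv2⟩ := h2 ξ Y ((le_max_right _ _).trans hY) hU
      rw [value_eq] at hv2
      exact ⟨v, hv0, hv1, by rw [hv2, abs_zero]⟩
  · intro w hw
    obtain ⟨X0, h⟩ := taLine tri_e hw
    refine ⟨X0, fun ξ X hX u v hu hv => ?_⟩
    exact W3_zero u v (h ξ X hX u v hu.2.1 hu.2.2 hv.2.1 hv.2.2) hu.1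
  · rw [dependent_iff]
    constructor
    · rintro ⟨v, hv0, hv⟩
      refine ⟨4, height v, ?_, fun X hX => ⟨v, hv0, hX, ?_⟩⟩
      · have h52 : Real.sqrt 3 < 2 := by
          rw [Real.sqrt_lt' (by norm_num)]
          norm_num
        linarith
      · rw [hv, abs_zero]
        have : (0 : ℝ) ≤ X := (Nat.cast_nonneg _).trans hX
        positivity
    · rintro ⟨w, Y, hw, hU⟩
      have hs1 : 1.7 ≤ Real.sqrt 3 := Real.le_sqrt_of_sq_le (by norm_num)
      obtain ⟨Y0, hY0, h⟩ := taExact tri_e (κ := 3) hw (by norm_num) (by linarith)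
      obtain ⟨v, hv0, -, hv⟩ := h ξ (max Y0 Y) (le_max_left _ _)
        fun X hX => hU X ((le_max_right _ _).trans hX)
      exact ⟨v, hv0, hv⟩
  · rw [dependent_iff]
    constructor
    · rintro ⟨v, hv0, hv⟩
      obtain ⟨Y, hY⟩ := simConv (s := 3 / 4) (by norm_num) (by norm_num) v hv0 hv
      refine ⟨3 / 4, Y, ?_, hY⟩
      have h52 : Real.sqrt 3 < 1.74 := by
        rw [Real.sqrt_lt' (by norm_num)]
        norm_num
      linarith
    · rintro ⟨s, Y, hs, hU⟩
      obtain ⟨u, hu0, hu⟩ := simT (ξ := ξ) tri_e hs ⟨Y, hU⟩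
      exact ⟨u, hu0, hu⟩

end Pool.Agent.Results.MP_a49cf6_nt.SumAndProductAtAllScales
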